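import Pool.Agent.Lib.MP_730078_an.HFinal

open MeasureTheory Filter Topology Pool.Agent.Lib.MP_730078_an
open scoped ENNReal

/-- Unrestricted almost everywhere convergence fails in `H^p(T_Γ)` for every `0 < p ≤ ∞`, the
bounded case included, when `Γ` is a light cone `C_n`, `n ≥ 3`, a regular cone with uncountably
many exposed rays, or a regular cone whose linear images exhaust regular cones with exposed rays
of arbitrarily large Cantor–Bendixson rank. -/
theorem Pool.Agent.Results.MP_730078_an.AllExponents.result (n : ℕ) (Γ : Set (Fin n → ℝ))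
    (hΓ : (∃ _ : NeZero n, 3 ≤ n ∧ Γ = lightCone n) ∨ Regular Γ ∧ (¬ (exposedRays Γ).Countable ∨
      ∀ k : ℕ, ∃ (m : ℕ) (Γ' : Set (Fin m → ℝ)), Regular Γ' ∧
        (cbDeriv (exposedRays Γ') k).Nonempty ∧ Exhausts Γ Γ'))
    (p : ℝ≥0∞) (hp : 0 < p) :
    ∃ F : (Fin n → ℂ) → ℂ, MemHp Γ p F ∧
      ∀ᵐ x : Fin n → ℝ, ¬ ∃ L : ℂ, Tendsto (fun y => F (pt x y)) (nhdsWithin 0 Γ) (nhds L) :=
  G.H.final hΓ hp
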