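import Pool.Agent.Lib.MP_730078_an.PC.Main

open MeasureTheory Filter Topology Pool.Agent.Lib.MP_730078_an
open scoped ENNReal

/-- There is a regular cone in `ℝ⁴` for which unrestricted almost everywhere convergence holds in
`H^p(T_Γ)` exactly when `2 ≤ p ≤ ∞`. -/
theorem Pool.Agent.Results.MP_730078_an.CriticalExponent.result :
    ∃ Γ : Set (Fin 4 → ℝ), Regular Γ ∧ ∀ p : ℝ≥0∞, 0 < p →
      ((∀ F : (Fin 4 → ℂ) → ℂ, MemHp Γ p F → ∀ᵐ x : Fin 4 → ℝ,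
        ∃ L : ℂ, Tendsto (fun y => F (pt x y)) (nhdsWithin 0 Γ) (nhds L)) ↔ 2 ≤ p) :=
  PC.main
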